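import Pool.Agent.Lib.MP_160bbb_an_Achieve.Part8

open Pool.Agent.Lib.MP_160bbb_an_Achieve MeasureTheory

/-- There is a conditionally convergent series in the plane whose sum range is the whole plane and
whose achievement set is not the whole plane, but has positive outer Lebesgue measure and is of the
second Baire category. -/
theorem Pool.Agent.Results.MP_160bbb_an.LargeAchievementSet.result :
    ∃ x : ℕ → ℝ × ℝ, CondConvergent x ∧ sumRange x = Set.univ ∧
      achievementSet x ≠ Set.univ ∧ 0 < volume (achievementSet x) ∧
      ¬ IsMeagre (achievementSet x) :=
  Pool.Agent.Lib.MP_160bbb_an_Achieve.main
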